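import Mathlib

set_option autoImplicit false

open scoped ENNReal

namespace Pool.Agent.MP_ccce09_ag

section Divisors
variable (R : Type) [CommRing R]

/-- Prime divisors of `Spec R`: height one primes. -/
abbrev PrimeDiv : Type := {P : PrimeSpectrum R // P.asIdeal.height = 1}

/-- Order of vanishing of `r : R` along `P`: the length of `R_P / r R_P`. -/
noncomputable def ordElt (P : PrimeDiv R) (r : R) : ℤ :=
  (Ring.ord (Localization.AtPrime P.1.asIdeal)
    (algebraMap R (Localization.AtPrime P.1.asIdeal) r)).toNat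

/-- Order of a rational function `f = a / b` along `P`: `ord a - ord b`. -/
noncomputable def ordAt (P : PrimeDiv R) (f : FractionRing R) : ℤ :=
  ordElt R P (IsLocalization.sec (nonZeroDivisors R) f).1 -
    ordElt R P (IsLocalization.sec (nonZeroDivisors R) f).2

/-- The divisorial module `R(D)`, generated by the `f ≠ 0` with `div f + D ≥ 0`. -/
noncomputable def divMod (D : PrimeDiv R → ℤ) : Submodule R (FractionRing R) :=
  Submodule.span R {f | f ≠ 0 ∧ ∀ P, 0 ≤ ordAt R P f + D P}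

/-- `K` is a canonical divisor: `R(K)` is the reflexive hull of the `d`-forms of `R` over `k`. -/
structure IsCanonicalDivisor (k : Type) [CommRing k] [Algebra k R] (d : ℕ)
    (K : PrimeDiv R →₀ ℤ) : Prop where
  out : Nonempty (divMod R K ≃ₗ[R] Module.Dual R (Module.Dual R (⋀[R]^d Ω[R⁄k])))

/-- On a local ring: `n (K + Δ)` is a principal divisor for some `n ≥ 1` prime to `p`. -/
def QCartierPrimeTo (p : ℕ) (K : PrimeDiv R →₀ ℤ) (Δ : PrimeDiv R →₀ ℚ) : Prop :=
  ∃ n : ℕ, 1 ≤ n ∧ ¬ p ∣ n ∧ ∃ g : FractionRing R, g ≠ 0 ∧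
    ∀ P, (ordAt R P g : ℚ) = n * (K P + Δ P)

/-- Largest rank of a free direct summand of `M`. -/
noncomputable def freeRank (M : Type) [AddCommGroup M] [Module R M] : ℕ∞ :=
  ⨆ (n : ℕ) (_ : ∃ (i : (Fin n → R) →ₗ[R] M) (π : M →ₗ[R] (Fin n → R)), π ∘ₗ i = LinearMap.id),
    (n : ℕ∞)

end Divisors

section Frobenius
variable (R : Type) [CommRing R] (p : ℕ) [ExpChar R p]

/-- `F^e_* M`: the module `M` with scalars restricted along the `e`-th Frobenius. -/
noncomputable abbrev frobPush (e : ℕ) (M : Type) [AddCommGroup M] [Module R M] : ModuleCat R :=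
  (ModuleCat.restrictScalars (iterateFrobenius R p e)).obj (ModuleCat.of R M)

/-- `ψ : F^e_* R → R` is the restriction of a map `F^e_* I → R`. -/
structure ExtendsTo (e : ℕ) (I : Submodule R (FractionRing R)) (ψ : frobPush R p e R →ₗ[R] R) :
    Prop where
  out : ∃ φ : frobPush R p e I →ₗ[R] R, ∀ (r : R) (x : I),
    (x : FractionRing R) = algebraMap R (FractionRing R) r → φ x = ψ r

/-- The maps `F^e_* R → R` that are restrictions of maps `F^e_* R(⌈(p^e - 1) Δ⌉) → R`. -/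
def pairHom (Δ : PrimeDiv R →₀ ℚ) (e : ℕ) : Set (frobPush R p e R →ₗ[R] R) :=
  {ψ | ExtendsTo R p e (divMod R fun P => ⌈((p : ℚ) ^ e - 1) * Δ P⌉) ψ}

variable [IsLocalRing R]

/-- The splitting ideal `I_e^Δ`. -/
def pairIdeal (Δ : PrimeDiv R →₀ ℚ) (e : ℕ) : Ideal R :=
  Ideal.span {r | ∀ ψ ∈ pairHom R p Δ e, ψ r ∈ IsLocalRing.maximalIdeal R}

/-- The sequence `frk (F^e_* R) / ([k^{1/p^e} : k] p^{e d})`. -/
noncomputable def fsigSeq (d e : ℕ) : ℝ≥0∞ :=
  (freeRank R (frobPush R p e R) : ℝ≥0∞) /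
    ((Module.length R (frobPush R p e (IsLocalRing.ResidueField R)) : ℝ≥0∞) * (p : ℝ≥0∞) ^ (e * d))

/-- The sequence `length (R / I_e^Δ) / p^{e d}`. -/
noncomputable def pairSeq (Δ : PrimeDiv R →₀ ℚ) (d e : ℕ) : ℝ≥0∞ :=
  (Module.length R (R ⧸ pairIdeal R p Δ e) : ℝ≥0∞) / (p : ℝ≥0∞) ^ (e * d)

end Frobenius

end Pool.Agent.MP_ccce09_ag
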