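import Mathlib

/-! The cone over `P^1 × P^1` embedded by `O(1,2)` as a semigroup ring, and its local ring at the
vertex. -/

set_option autoImplicit false
set_option linter.style.haveILetI false
set_option linter.unusedSectionVars false

open AddMonoidAlgebra

namespace Pool.Agent.MP_ccce09_ag

abbrev M : Type := ℤ × ℤ × ℤ

def sig : AddSubmonoid M where
  carrier := {w | 0 ≤ w.1 ∧ 0 ≤ w.2.1 ∧ w.1 ≤ w.2.2 ∧ w.2.1 ≤ 2 * w.2.2}
  add_mem' := by
    rintro ⟨a, b, c⟩ ⟨d, e, f⟩ h1 h2
    simp only [Set.mem_ofPred_eq, Prod.mk_add_mk] at *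
    omega
  zero_mem' := by simp

lemma mem_sig {w : M} : w ∈ sig ↔ 0 ≤ w.1 ∧ 0 ≤ w.2.1 ∧ w.1 ≤ w.2.2 ∧ w.2.1 ≤ 2 * w.2.2 := Iff.rfl

instance : UniqueSums sig :=
  UniqueSums.of_injective_addHom (sig.subtype : sig →+ M).toAddHom Subtype.val_injective
    inferInstance

/-- degree one generators -/
def gen (i j : ℤ) (h : 0 ≤ i ∧ i ≤ 1 ∧ 0 ≤ j ∧ j ≤ 2) : sig :=
  ⟨(i, j, 1), by rw [mem_sig]; simp only; omega⟩

def a0 : sig := gen 0 0 (by omega)
def a1 : sig := gen 0 1 (by omega)
def a2 : sig := gen 0 2 (by omega)
def b0 : sig := gen 1 0 (by omega)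
def b1 : sig := gen 1 1 (by omega)
def b2 : sig := gen 1 2 (by omega)

lemma sig_step (w : sig) (hw : w ≠ 0) :
    ∃ g ∈ ({a0, a1, a2, b0, b1, b2} : Set sig), ∃ w' : sig, w = g + w' ∧ w'.1.2.2 + 1 = w.1.2.2 := by
  obtain ⟨⟨i, j, n⟩, h⟩ := w
  have h' := h
  rw [mem_sig] at h'
  simp only at h'
  have hn : 0 < n := by
    by_contra h0
    apply hw
    ext <;> simp <;> omega
  have key : ∀ i' j' (hg : 0 ≤ i' ∧ i' ≤ 1 ∧ 0 ≤ j' ∧ j' ≤ 2), i' ≤ i → j' ≤ j → i - i' ≤ n - 1 →
      j - j' ≤ 2 * (n - 1) → ∃ w' : sig, (⟨(i, j, n), h⟩ : sig) = gen i' j' hg + w' ∧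
        w'.1.2.2 + 1 = n := by
    intro i' j' hg h1 h2 h3 h4
    refine ⟨⟨(i - i', j - j', n - 1), by rw [mem_sig]; simp only; omega⟩, ?_, by simp⟩
    ext <;> simp [gen]
  rcases (by omega : i = 0 ∨ 0 < i) with hi | hi <;>
    rcases (by omega : j = 0 ∨ j = 1 ∨ 2 ≤ j) with hj | hj | hj
  · exact ⟨a0, by simp, key _ _ _ (by omega) (by omega) (by omega) (by omega)⟩
  · exact ⟨a1, by simp, key _ _ _ (by omega) (by omega) (by omega) (by omega)⟩
  · exact ⟨a2, by simp, key _ _ _ (by omega) (by omega) (by omega) (by omega)⟩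
  · exact ⟨b0, by simp, key _ _ _ (by omega) (by omega) (by omega) (by omega)⟩
  · exact ⟨b1, by simp, key _ _ _ (by omega) (by omega) (by omega) (by omega)⟩
  · exact ⟨b2, by simp, key _ _ _ (by omega) (by omega) (by omega) (by omega)⟩

lemma deg_nonneg (w : sig) : 0 ≤ w.1.2.2 := by have := mem_sig.mp w.2; omega

lemma deg_pos {w : sig} (hw : w ≠ 0) : 0 < w.1.2.2 := by
  obtain ⟨g, -, w', -, h⟩ := sig_step w hw
  have := deg_nonneg w'
  omega

instance : AddMonoid.FG sig := by
  refine ⟨(AddSubmonoid.fg_iff _).mpr ⟨{a0, a1, a2, b0, b1, b2}, ?_, Set.toFinite _⟩⟩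
  rw [eq_top_iff]
  have : ∀ n : ℕ, ∀ w : sig, w.1.2.2 = n →
      w ∈ AddSubmonoid.closure ({a0, a1, a2, b0, b1, b2} : Set sig) := by
    intro n
    induction n with
    | zero =>
      intro w hw
      by_cases h0 : w = 0
      · rw [h0]; exact zero_mem _
      · have := deg_pos h0; omega
    | succ n ih =>
      intro w hw
      by_cases h0 : w = 0
      · rw [h0]; exact zero_mem _
      obtain ⟨g, hg, w', rfl, h⟩ := sig_step w h0
      exact add_mem (AddSubmonoid.subset_closure hg) (ih w' (by omega))
  intro w _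
  exact this w.1.2.2.toNat w (by have := deg_nonneg w; omega)

variable (p : ℕ) [Fact p.Prime]

abbrev T : Type := AddMonoidAlgebra (ZMod p) M
abbrev R0 : Type := AddMonoidAlgebra (ZMod p) sig

instance : IsNoetherianRing (R0 p) := Algebra.FiniteType.isNoetherianRing (ZMod p) _

/-- projection to a face -/
noncomputable def face (l : sig → Prop) [DecidablePred l] (h0 : l 0)
    (h : ∀ a b, l (a + b) ↔ l a ∧ l b) : R0 p →ₐ[ZMod p] R0 p :=
  AddMonoidAlgebra.lift (ZMod p) (R0 p) sig
    { toFun := fun w => if l w.toAdd then single w.toAdd 1 else 0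
      map_one' := by simp [h0, one_def]
      map_mul' := fun a b => by
        simp only [toAdd_mul, h]
        by_cases ha : l a.toAdd <;> by_cases hb : l b.toAdd <;> simp [ha, hb, single_mul_single] }

lemma face_single (l : sig → Prop) [DecidablePred l] (h0 : l 0)
    (h : ∀ a b, l (a + b) ↔ l a ∧ l b) (w : sig) (c : ZMod p) :
    face p l h0 h (single w c) = if l w then single w c else 0 := by
  rw [face, lift_single]
  by_cases hw : l w <;> simp [hw]

lemma add_eq_zero_sig (a b : sig) : a + b = 0 ↔ a = 0 ∧ b = 0 := by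
  refine ⟨fun h => ?_, fun h => by simp [h.1, h.2]⟩
  have h1 : a.1.2.2 + b.1.2.2 = 0 := congrArg (fun w : sig => w.1.2.2) h
  have := deg_nonneg a
  have := deg_nonneg b
  constructor
  · by_contra h0; have := deg_pos h0; omega
  · by_contra h0; have := deg_pos h0; omega

/-- constant term -/
noncomputable def ev0 : R0 p →ₐ[ZMod p] ZMod p :=
  AddMonoidAlgebra.lift (ZMod p) (ZMod p) sig
    { toFun := fun w => if w.toAdd = 0 then 1 else 0
      map_one' := by simp
      map_mul' := fun a b => by
        simp only [toAdd_mul, add_eq_zero_sig]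
        by_cases ha : a.toAdd = 0 <;> by_cases hb : b.toAdd = 0 <;> simp [ha, hb] }

lemma ev0_single (w : sig) (c : ZMod p) : ev0 p (single w c) = if w = 0 then c else 0 := by
  rw [ev0, lift_single]
  by_cases hw : w = 0 <;> simp [hw]

lemma ev0_eq (a : R0 p) : ev0 p a = a.coeff 0 := by
  induction a using AddMonoidAlgebra.induction_linear with
  | zero => simp
  | add a b ha hb => simp [ha, hb]
  | single w c => rw [ev0_single, coeff_single, Finsupp.single_apply]

noncomputable def m0 : Ideal (R0 p) := RingHom.ker (ev0 p)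

lemma mem_m0 {a : R0 p} : a ∈ m0 p ↔ ev0 p a = 0 := RingHom.mem_ker

instance m0_max : (m0 p).IsMaximal :=
  RingHom.ker_isMaximal_of_surjective _ fun c => ⟨algebraMap _ _ c, (ev0 p).commutes c⟩

lemma m0_le (Q : Ideal (R0 p)) (h : ∀ w : sig, w ≠ 0 → single w 1 ∈ Q) : m0 p ≤ Q := by
  intro a ha
  rw [mem_m0, ev0_eq] at ha
  rw [← sum_coeff_single a]
  refine Ideal.sum_mem _ fun w hw => ?_
  have hw0 : w ≠ 0 := by rintro rfl; simp [ha] at hw
  have : single w (a.coeff w) = single 0 (a.coeff w) * single w 1 := by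
    rw [single_mul_single]; simp
  rw [this]
  exact Q.mul_mem_left _ (h w hw0)

lemma height_m0 : (m0 p).height = 3 := by
  classical
  apply le_antisymm
  · have hmin : m0 p ∈ (Ideal.span (({single a0 1, single b2 1, single a2 1 - single b0 1} :
        Finset (R0 p)) : Set (R0 p))).minimalPrimes := by
      refine ⟨⟨inferInstance, ?_⟩, ?_⟩
      · rw [Ideal.span_le]
        intro x hx
        simp only [Finset.coe_insert, Finset.coe_singleton, Set.mem_insert_iff,
          Set.mem_singleton_iff] at hx
        have n1 : a0 ≠ 0 := by decide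
        have n2 : b2 ≠ 0 := by decide
        have n3 : a2 ≠ 0 := by decide
        have n4 : b0 ≠ 0 := by decide
        rcases hx with rfl | rfl | rfl <;>
          simp [SetLike.mem_coe, mem_m0, ev0_single, n1, n2, n3, n4]
      · rintro Q ⟨hQ, hle⟩ -
        have g1 : single a0 1 ∈ Q := hle (Ideal.subset_span (by simp))
        have g2 : single b2 1 ∈ Q := hle (Ideal.subset_span (by simp))
        have g3 : single a2 1 - single b0 1 ∈ Q := hle (Ideal.subset_span (by simp))
        have mm : ∀ a b c d : sig, a + b = c + d → (single a 1 : R0 p) * single b 1 =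
            single c 1 * single d 1 := fun a b c d h => by
          rw [single_mul_single, single_mul_single, h]
        have g4 : (single a2 1 : R0 p) ∈ Q := by
          have : (single a2 1 : R0 p) * single a2 1 ∈ Q := by
            have e : (single a2 1 : R0 p) * single a2 1 = single a2 1 * (single a2 1 - single b0 1)
                + single a0 1 * single b2 1 := by
              rw [mm a0 b2 a2 b0 (by decide)]; ring
            rw [e]
            exact add_mem (Q.mul_mem_left _ g3) (Q.mul_mem_left _ g2)
          exact (hQ.mem_or_mem this).elim id id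
        have g5 : (single b0 1 : R0 p) ∈ Q := by simpa using sub_mem g4 g3
        have g6 : (single a1 1 : R0 p) ∈ Q := by
          have : (single a1 1 : R0 p) * single a1 1 ∈ Q := by
            rw [mm a1 a1 a0 a2 (by decide)]; exact Q.mul_mem_left _ g4
          exact (hQ.mem_or_mem this).elim id id
        have g7 : (single b1 1 : R0 p) ∈ Q := by
          have : (single b1 1 : R0 p) * single b1 1 ∈ Q := by
            rw [mm b1 b1 b0 b2 (by decide)]; exact Q.mul_mem_left _ g2
          exact (hQ.mem_or_mem this).elim id id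
        refine m0_le p Q fun w hw => ?_
        obtain ⟨g, hg, w', rfl, -⟩ := sig_step w hw
        have : (single (g + w') 1 : R0 p) = single g 1 * single w' 1 := by
          rw [single_mul_single, one_mul]
        rw [this]
        apply Q.mul_mem_right
        simp only [Set.mem_insert_iff, Set.mem_singleton_iff] at hg
        rcases hg with rfl | rfl | rfl | rfl | rfl | rfl <;> assumption
    refine (Ideal.height_le_card_of_mem_minimalPrimes_span_finset hmin).trans ?_
    exact_mod_cast Finset.card_le_three
  · have l1 : ∀ a b : sig, (a + b).1.1 = 0 ↔ a.1.1 = 0 ∧ b.1.1 = 0 := fun a b => by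
      have := mem_sig.mp a.2; have := mem_sig.mp b.2
      change a.1.1 + b.1.1 = 0 ↔ _
      omega
    have l2 : ∀ a b : sig, ((a + b).1.1 = 0 ∧ (a + b).1.2.1 = 0) ↔
        (a.1.1 = 0 ∧ a.1.2.1 = 0) ∧ (b.1.1 = 0 ∧ b.1.2.1 = 0) := fun a b => by
      have := mem_sig.mp a.2; have := mem_sig.mp b.2
      change (a.1.1 + b.1.1 = 0 ∧ a.1.2.1 + b.1.2.1 = 0) ↔ _
      omega
    set f1 := face p (fun w => w.1.1 = 0) rfl l1 with hf1
    set f2 := face p (fun w => w.1.1 = 0 ∧ w.1.2.1 = 0) ⟨rfl, rfl⟩ l2 with hf2
    have e12 : ∀ a, f2 (f1 a) = f2 a := by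
      intro a
      induction a using AddMonoidAlgebra.induction_linear with
      | zero => simp
      | add a b ha hb => simp [ha, hb]
      | single w c =>
        simp only [hf1, hf2, face_single]
        by_cases h : w.1.1 = 0
        · simp [h, face_single]
        · simp [h]
    have e23 : ∀ a, ev0 p (f2 a) = ev0 p a := by
      intro a
      induction a using AddMonoidAlgebra.induction_linear with
      | zero => simp
      | add a b ha hb => simp [ha, hb]
      | single w c =>
        simp only [hf2, face_single]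
        by_cases h : w.1.1 = 0 ∧ w.1.2.1 = 0
        · simp [h]
        · have : w ≠ 0 := by rintro rfl; exact h ⟨rfl, rfl⟩
          simp [h, ev0_single, this]
    have p1 : (RingHom.ker f1).IsPrime := RingHom.ker_isPrime _
    have p2 : (RingHom.ker f2).IsPrime := RingHom.ker_isPrime _
    have s1 : (⊥ : Ideal (R0 p)) < RingHom.ker f1 := by
      refine bot_lt_iff_ne_bot.mpr ((Submodule.ne_bot_iff _).mpr ⟨single b0 1, ?_, by simp⟩)
      rw [RingHom.mem_ker, hf1, face_single, if_neg (by decide)]
    have s2 : RingHom.ker f1 < RingHom.ker f2 := by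
      refine SetLike.lt_iff_le_and_exists.mpr ⟨fun a ha => ?_, single a1 1, ?_, ?_⟩
      · rw [RingHom.mem_ker] at ha ⊢
        rw [← e12, ha, map_zero]
      · rw [RingHom.mem_ker, hf2, face_single, if_neg (by decide)]
      · rw [RingHom.mem_ker, hf1, face_single, if_pos (by decide)]; simp
    have s3 : RingHom.ker f2 < m0 p := by
      refine SetLike.lt_iff_le_and_exists.mpr ⟨fun a ha => ?_, single a0 1, ?_, ?_⟩
      · rw [RingHom.mem_ker] at ha
        rw [mem_m0, ← e23, ha, map_zero]
      · rw [mem_m0, ev0_single, if_neg (by decide)]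
      · rw [RingHom.mem_ker, hf2, face_single, if_pos (by decide)]; simp
    have h1 := Ideal.height_add_one_le_of_lt_of_isPrime s1
    have h2 := Ideal.height_add_one_le_of_lt_of_isPrime s2
    have h3 := Ideal.height_add_one_le_of_lt_of_isPrime s3
    rw [Ideal.height_bot] at h1
    calc (3 : ℕ∞) = 0 + 1 + 1 + 1 := by norm_num
      _ ≤ (RingHom.ker f1).height + 1 + 1 := by gcongr
      _ ≤ (RingHom.ker f2).height + 1 := by gcongr
      _ ≤ _ := h3

/-- the four facet functionals, into the exponents of a polynomial ring -/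
noncomputable def vv : sig →+ (Fin 4 →₀ ℕ) where
  toFun w := Finsupp.equivFunOnFinite.symm
    ![w.1.1.toNat, w.1.2.1.toNat, (w.1.2.2 - w.1.1).toNat, (2 * w.1.2.2 - w.1.2.1).toNat]
  map_zero' := by ext i; fin_cases i <;> simp
  map_add' a b := by
    have := mem_sig.mp a.2; have := mem_sig.mp b.2
    ext i; fin_cases i <;> simp <;> omega

lemma vv_inj : Function.Injective vv := by
  intro a b h
  have := mem_sig.mp a.2; have := mem_sig.mp b.2
  have h0 := DFunLike.congr_fun h 0
  have h1 := DFunLike.congr_fun h 1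
  have h2 := DFunLike.congr_fun h 2
  simp [vv] at h0 h1 h2
  ext <;> omega

lemma vv_pure (a : sig) (b : Fin 4 →₀ ℕ) (h : vv a + b ∈ Set.range vv) : b ∈ Set.range vv := by
  obtain ⟨c, hc⟩ := h
  have := mem_sig.mp a.2; have := mem_sig.mp c.2
  have h0 := DFunLike.congr_fun hc 0
  have h1 := DFunLike.congr_fun hc 1
  have h2 := DFunLike.congr_fun hc 2
  have h3 := DFunLike.congr_fun hc 3
  simp [vv] at h0 h1 h2 h3
  refine ⟨⟨(b 0, b 1, b 0 + b 2), by rw [mem_sig]; simp only; omega⟩, ?_⟩
  ext i; fin_cases i <;> simp [vv]; omega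

lemma comap_single_not {k A B : Type} [Semiring k] {f : A → B} {r : k} {n : B}
    (hn : n ∉ Set.range f) (hf : Function.Injective f) :
    comapDomain f hf (single n r) = 0 := by ext; simp [*]

instance : IsIntegrallyClosed (R0 p) := by
  let S := MvPolynomial (Fin 4) (ZMod p)
  let ι : R0 p →+* S := AddMonoidAlgebra.mapDomainRingHom (ZMod p) vv
  have hι : Function.Injective ι := AddMonoidAlgebra.mapDomain_injective vv_inj
  let ρ : S →+ R0 p := AddMonoidAlgebra.comapDomainAddMonoidHom vv vv_inj
  have hρ : ∀ a s, ρ (ι a * s) = a * ρ s := by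
    intro a s
    induction a using AddMonoidAlgebra.induction_linear with
    | zero => simp
    | add a b ha hb => simp only [map_add, add_mul, ha, hb]
    | single w c =>
      induction s using AddMonoidAlgebra.induction_linear with
      | zero => simp
      | add a b ha hb => simp only [map_add, mul_add, ha, hb]
      | single b d =>
        have e : ι (single w c) = single (vv w) c := AddMonoidAlgebra.mapDomain_single
        rw [e, single_mul_single]
        by_cases hb : b ∈ Set.range vv
        · obtain ⟨b', rfl⟩ := hb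
          rw [← map_add]
          change comapDomain vv vv_inj _ = _ * comapDomain vv vv_inj _
          rw [comapDomain_single_map, comapDomain_single_map, single_mul_single]
        · change comapDomain vv vv_inj _ = _ * comapDomain vv vv_inj _
          rw [comap_single_not hb, comap_single_not (fun h => hb (vv_pure _ _ h)), mul_zero]
  have hρ1 : ∀ a, ρ (ι a) = a := by
    intro a
    have := hρ a (ι 1)
    rw [← map_mul, mul_one] at this
    rw [this]
    change a * comapDomain vv vv_inj (mapDomain vv (single 0 1)) = a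
    rw [mapDomain_single, comapDomain_single_map]
    exact mul_one a
  rw [isIntegrallyClosed_iff (FractionRing (R0 p))]
  intro x hx
  let ψ : FractionRing (R0 p) →+* FractionRing S :=
    IsFractionRing.lift (g := (algebraMap S (FractionRing S)).comp ι)
      ((IsFractionRing.injective S _).comp hι)
  have hψ : ∀ a, ψ (algebraMap _ _ a) = algebraMap S _ (ι a) := fun a => by
    simp [ψ]
  have h1 : IsIntegral S (ψ x) := hx.map_of_comp_eq ι ψ (RingHom.ext fun a => (hψ a).symm)
  obtain ⟨s, hs⟩ := IsIntegrallyClosed.algebraMap_eq_of_integral h1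
  obtain ⟨⟨a, b⟩, hab⟩ := IsLocalization.surj (nonZeroDivisors (R0 p)) x
  have e : ι b * s = ι a := by
    apply IsFractionRing.injective S (FractionRing S)
    rw [map_mul, hs, ← hψ, ← hψ, ← map_mul, mul_comm]
    exact congrArg ψ hab
  have e2 := congrArg ρ e
  rw [hρ, hρ1] at e2
  refine ⟨ρ s, ?_⟩
  have hb : algebraMap (R0 p) (FractionRing (R0 p)) b ≠ 0 := by
    rw [Ne, map_eq_zero_iff _ (IsFractionRing.injective _ _)]
    exact nonZeroDivisors.coe_ne_zero b
  apply mul_right_cancel₀ hb
  simp only at hab
  rw [hab, ← map_mul, mul_comm, e2]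

/-- the local ring at the vertex -/
def RR : Type := Localization.AtPrime (m0 p)

noncomputable instance : CommRing (RR p) := inferInstanceAs (CommRing (Localization.AtPrime (m0 p)))
noncomputable instance : Algebra (R0 p) (RR p) :=
  inferInstanceAs (Algebra (R0 p) (Localization.AtPrime (m0 p)))
instance : IsLocalization.AtPrime (RR p) (m0 p) :=
  inferInstanceAs (IsLocalization.AtPrime (Localization.AtPrime (m0 p)) (m0 p))
noncomputable instance : Algebra (ZMod p) (RR p) :=
  ((algebraMap (R0 p) (RR p)).comp (algebraMap (ZMod p) (R0 p))).toAlgebra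
instance : IsScalarTower (ZMod p) (R0 p) (RR p) := IsScalarTower.of_algebraMap_eq' rfl
instance : IsDomain (RR p) := inferInstanceAs (IsDomain (Localization.AtPrime (m0 p)))
instance : IsLocalRing (RR p) := inferInstanceAs (IsLocalRing (Localization.AtPrime (m0 p)))
instance : IsNoetherianRing (RR p) :=
  inferInstanceAs (IsNoetherianRing (Localization.AtPrime (m0 p)))

instance : IsIntegrallyClosed (RR p) :=
  isIntegrallyClosed_of_isLocalization _ (m0 p).primeCompl (m0 p).primeCompl_le_nonZeroDivisors

instance : CharP (RR p) p := charP_of_injective_algebraMap (algebraMap (ZMod p) _).injective p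

instance : CharP (R0 p) p := charP_of_injective_algebraMap (algebraMap (ZMod p) _).injective p

lemma dim_RR : ringKrullDim (RR p) = 3 := by
  rw [IsLocalization.AtPrime.ringKrullDim_eq_height (m0 p), height_m0]; rfl

lemma essFT : Algebra.EssFiniteType (ZMod p) (RR p) :=
  haveI := Algebra.EssFiniteType.of_isLocalization (RR p) (m0 p).primeCompl
  Algebra.EssFiniteType.comp (ZMod p) (R0 p) (RR p)

end Pool.Agent.MP_ccce09_ag
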